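import Pool.Agent.Helper77.PPS.Goals

/-!
# Packet PPS-P_HTE (helper39 for helper77)
-/

set_option autoImplicit false

namespace Pool.Agent.Helper39.PPS

open Finset Real Pool.Agent.Helper77.PPS

theorem geo (κ : ℝ) : ∃ K : ℝ, 0 < K ∧ ∀ j : ℕ,
    2 ^ j * exp (j * κ) * exp (-((2 : ℝ) ^ j - 1) / 2) ≤ K * (1 / 2) ^ j := by
  obtain ⟨n, hn⟩ := pow_unbounded_of_one_lt (4 * exp κ) (by norm_num : (1 : ℝ) < 2)
  refine ⟨exp (1 / 2) * (n.factorial * 2 ^ n), by positivity, fun j => ?_⟩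
  have h1 : ((2 : ℝ) ^ j / 2) ^ n / n.factorial ≤ exp ((2 : ℝ) ^ j / 2) :=
    Real.pow_div_factorial_le_exp _ (by positivity) n
  have h2 : exp (-((2 : ℝ) ^ j - 1) / 2) = exp (1 / 2) * (exp ((2 : ℝ) ^ j / 2))⁻¹ := by
    rw [← exp_neg, ← exp_add]
    congr 1
    ring
  have h3 : (exp ((2 : ℝ) ^ j / 2))⁻¹ ≤ n.factorial * 2 ^ n / (2 ^ n) ^ j := by
    have h4 : (exp ((2 : ℝ) ^ j / 2))⁻¹ ≤ (((2 : ℝ) ^ j / 2) ^ n / n.factorial)⁻¹ :=
      inv_anti₀ (by positivity) h1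
    refine h4.trans (le_of_eq ?_)
    rw [inv_div, div_pow, ← pow_mul, ← pow_mul, mul_comm j n]
    field_simp
  have h5 : (2 * exp κ) ^ j ≤ (2 ^ n * (1 / 2)) ^ j := by
    apply pow_le_pow_left₀ (by positivity)
    linarith
  have h6 : exp (j * κ) = exp κ ^ j := by rw [← exp_nat_mul]
  rw [h2, h6]
  calc 2 ^ j * exp κ ^ j * (exp (1 / 2) * (exp ((2 : ℝ) ^ j / 2))⁻¹)
      ≤ 2 ^ j * exp κ ^ j * (exp (1 / 2) * (n.factorial * 2 ^ n / (2 ^ n) ^ j)) := by
        gcongr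
    _ = exp (1 / 2) * (n.factorial * 2 ^ n) * ((2 * exp κ) ^ j / (2 ^ n) ^ j) := by
        rw [mul_pow]; ring
    _ ≤ exp (1 / 2) * (n.factorial * 2 ^ n) * ((2 ^ n * (1 / 2)) ^ j / (2 ^ n) ^ j) := by
        gcongr
    _ = exp (1 / 2) * (n.factorial * 2 ^ n) * (1 / 2) ^ j := by
        rw [mul_pow]
        congr 1
        field_simp

theorem geo_sum {K : ℝ} (hK : 0 < K) (J : ℕ) : ∑ j ∈ range J, K * (1 / 2 : ℝ) ^ j ≤ 2 * K := by
  rw [← Finset.mul_sum]
  have h1 : ∑ j ∈ range J, (1 / 2 : ℝ) ^ j ≤ 2 := by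
    rw [geom_sum_eq (by norm_num)]
    have : (0 : ℝ) ≤ (1 / 2) ^ J := by positivity
    rw [div_le_iff_of_neg (by norm_num)]
    linarith
  nlinarith

section

variable {P : Type} {N : P → ℕ} {C : ℝ}

theorem nb_pos (h : PSys N C) (b : Finset P) : 0 < nb N b :=
  Finset.prod_pos fun q _ => by have := h.two q; omega

theorem le_nb (h : PSys N C) (b : Finset P) {q : P} (hq : q ∈ b) : N q ≤ nb N b :=
  Nat.le_of_dvd (nb_pos h b) (Finset.dvd_prod_of_mem N hq)

theorem wt_nonneg {f : P → ℝ} (hf : ∀ q, 0 ≤ f q) (b : Finset P) : 0 ≤ wt f b :=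
  Finset.prod_nonneg fun q _ => hf q

theorem ms_step (h : PSys N C) {f : P → ℝ} {A C₂ : ℝ} (hf : ∀ q, 0 ≤ f q ∧ f q ≤ A) (hA : 0 ≤ A)
    (hC₂ : 0 < C₂) (h2 : ∀ y : ℝ, 2 ≤ y → mw N (fun _ ↦ 1) y (2 * y) ≤ C₂ / log y)
    {X : ℝ} (hX : 2 ≤ X) : ms N f (2 * X) ≤ ms N f X + A * C₂ / log 2 := by
  classical
  have h3 : pr N X = (pr N (2 * X)).filter (fun q => ¬ (X < N q)) := by
    ext q
    rw [Finset.mem_filter, mem_pr h, mem_pr h]
    constructor
    · intro hq
      exact ⟨by linarith, by linarith⟩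
    · rintro ⟨_, hq⟩
      linarith
  have h4 : ms N f (2 * X) = mw N f X (2 * X) + ms N f X := by
    unfold ms mw
    rw [h3]
    exact (Finset.sum_filter_add_sum_filter_not _ _ _).symm
  have h5 : mw N f X (2 * X) ≤ A * mw N (fun _ ↦ 1) X (2 * X) := by
    unfold mw
    rw [Finset.mul_sum]
    apply Finset.sum_le_sum
    intro q _
    rw [mul_one_div]
    exact div_le_div_of_nonneg_right (hf q).2 (Nat.cast_nonneg _)
  have h6 := h2 X hX
  have hl : 0 < log 2 := log_pos (by norm_num)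
  have h7 : C₂ / log X ≤ C₂ / log 2 := by
    apply div_le_div_of_nonneg_left hC₂.le hl
    exact log_le_log (by norm_num) hX
  have h8 : A * mw N (fun _ ↦ 1) X (2 * X) ≤ A * (C₂ / log 2) :=
    mul_le_mul_of_nonneg_left (h6.trans h7) hA
  rw [h4, mul_div_assoc]
  linarith

theorem ms_iter (h : PSys N C) {f : P → ℝ} {A C₂ : ℝ} (hf : ∀ q, 0 ≤ f q ∧ f q ≤ A) (hA : 0 ≤ A)
    (hC₂ : 0 < C₂) (h2 : ∀ y : ℝ, 2 ≤ y → mw N (fun _ ↦ 1) y (2 * y) ≤ C₂ / log y)
    {X : ℝ} (hX : 2 ≤ X) (j : ℕ) : ms N f (2 ^ j * X) ≤ ms N f X + j * (A * C₂ / log 2) := by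
  induction j with
  | zero => simp
  | succ j ih =>
    have h1 : (2 : ℝ) ≤ 2 ^ j * X := by
      have : (1 : ℝ) ≤ 2 ^ j := one_le_pow₀ (by norm_num)
      nlinarith
    have h3 := ms_step h hf hA hC₂ h2 h1
    have h4 : (2 : ℝ) ^ (j + 1) * X = 2 * (2 ^ j * X) := by ring
    rw [h4]
    push_cast
    linarith

theorem mag_iter (h : PSys N C) {f : P → ℝ} {A C₂ : ℝ} (hf : ∀ q, 0 ≤ f q ∧ f q ≤ A) (hA : 0 ≤ A)
    (hC₂ : 0 < C₂) (h2 : ∀ y : ℝ, 2 ≤ y → mw N (fun _ ↦ 1) y (2 * y) ≤ C₂ / log y)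
    {X : ℝ} (hX : 2 ≤ X) (j : ℕ) :
    mag N f (2 ^ j * X) ≤ 2 ^ j * exp (j * (A * C₂ / log 2)) * mag N f X := by
  have h1 := ms_iter h hf hA hC₂ h2 hX j
  have hlX : 0 < log X := log_pos (by linarith)
  have h3 : log X ≤ log (2 ^ j * X) := by
    apply log_le_log (by linarith)
    have : (1 : ℝ) ≤ 2 ^ j := one_le_pow₀ (by norm_num)
    nlinarith
  unfold mag
  calc 2 ^ j * X / log (2 ^ j * X) * exp (ms N f (2 ^ j * X))
      ≤ 2 ^ j * X / log X * exp (ms N f X + j * (A * C₂ / log 2)) := by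
        apply mul_le_mul
        · exact div_le_div_of_nonneg_left (by positivity) hlX h3
        · exact exp_le_exp.mpr h1
        · positivity
        · positivity
    _ = 2 ^ j * exp (j * (A * C₂ / log 2)) * (X / log X * exp (ms N f X)) := by
        rw [exp_add]; ring

/-- The bound for finite sets, `X ≥ 2`. -/
theorem fin_bound (h : PSys N C) {f : P → ℝ} {A C₁ C₂ K : ℝ} (hf : ∀ q, 0 ≤ f q ∧ f q ≤ A)
    (hA : 0 ≤ A) (hC₁ : 0 < C₁) (hC₂ : 0 < C₂) (hK : 0 < K)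
    (h2 : ∀ y : ℝ, 2 ≤ y → mw N (fun _ ↦ 1) y (2 * y) ≤ C₂ / log y)
    (h3 : ∀ X : ℝ, 2 ≤ X →
      ∑ b ∈ (pr N X).powerset.filter (fun b ↦ (nb N b : ℝ) ≤ X), wt f b ≤ C₁ * mag N f X)
    (hgeo : ∀ j : ℕ, 2 ^ j * exp (j * (A * C₂ / log 2)) * exp (-((2 : ℝ) ^ j - 1) / 2) ≤
      K * (1 / 2) ^ j)
    {X : ℝ} (hX : 2 ≤ X) (F : Finset (Finset P)) :
    ∑ b ∈ F, wt f b * exp (-(nb N b : ℝ) / X) ≤ C₁ * (2 * K) * mag N f X := by
  classical
  have hX0 : 0 < X := by linarith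
  -- a common bound
  obtain ⟨J, hJ⟩ : ∃ J : ℕ, ∀ b ∈ F, (nb N b : ℝ) ≤ 2 ^ J * X := by
    obtain ⟨J, hJ⟩ := pow_unbounded_of_one_lt (∑ b ∈ F, (nb N b : ℝ)) (by norm_num : (1 : ℝ) < 2)
    refine ⟨J, fun b hb => ?_⟩
    have h4 : (nb N b : ℝ) ≤ ∑ b ∈ F, (nb N b : ℝ) :=
      Finset.single_le_sum (f := fun b => (nb N b : ℝ)) (fun _ _ => Nat.cast_nonneg _) hb
    have h5 : (0 : ℝ) < 2 ^ J := by positivity
    nlinarith
  have hpt : ∀ b ∈ F, wt f b * exp (-(nb N b : ℝ) / X) ≤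
      ∑ j ∈ range (J + 1), exp (-((2 : ℝ) ^ j - 1) / 2) *
        (if (nb N b : ℝ) ≤ 2 ^ j * X then wt f b else 0) := by
    intro b hb
    have hw := wt_nonneg (fun q => (hf q).1) b
    have hex : ∃ j : ℕ, (nb N b : ℝ) ≤ 2 ^ j * X := ⟨J, hJ b hb⟩
    set j := Nat.find hex with hj
    have hj1 : (nb N b : ℝ) ≤ 2 ^ j * X := Nat.find_spec hex
    have hjJ : j ≤ J := Nat.find_min' hex (hJ b hb)
    have hwt : exp (-(nb N b : ℝ) / X) ≤ exp (-((2 : ℝ) ^ j - 1) / 2) := by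
      apply exp_le_exp.mpr
      rw [neg_div, neg_div, neg_le_neg_iff]
      rw [le_div_iff₀ hX0]
      rcases Nat.eq_zero_or_pos j with h0 | h0
      · rw [h0]
        norm_num
      · have h6 := Nat.find_min hex (m := j - 1) (by omega)
        push Not at h6
        have h7 : (2 : ℝ) ^ j = 2 * 2 ^ (j - 1) := by
          rw [← pow_succ']
          congr 1
          omega
        rw [h7]
        nlinarith
    have h8 : exp (-((2 : ℝ) ^ j - 1) / 2) * (if (nb N b : ℝ) ≤ 2 ^ j * X then wt f b else 0) ≤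
        ∑ j ∈ range (J + 1), exp (-((2 : ℝ) ^ j - 1) / 2) *
        (if (nb N b : ℝ) ≤ 2 ^ j * X then wt f b else 0) := by
      apply Finset.single_le_sum (f := fun j => exp (-((2 : ℝ) ^ j - 1) / 2) *
        (if (nb N b : ℝ) ≤ 2 ^ j * X then wt f b else 0))
      · intro i _
        apply mul_nonneg (exp_pos _).le
        split_ifs
        · exact hw
        · exact le_rfl
      · rw [Finset.mem_range]; omega
    refine le_trans ?_ h8
    rw [if_pos hj1, mul_comm]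
    exact mul_le_mul_of_nonneg_right hwt hw
  calc ∑ b ∈ F, wt f b * exp (-(nb N b : ℝ) / X)
      ≤ ∑ b ∈ F, ∑ j ∈ range (J + 1), exp (-((2 : ℝ) ^ j - 1) / 2) *
        (if (nb N b : ℝ) ≤ 2 ^ j * X then wt f b else 0) := Finset.sum_le_sum hpt
    _ = ∑ j ∈ range (J + 1), exp (-((2 : ℝ) ^ j - 1) / 2) *
        ∑ b ∈ F, (if (nb N b : ℝ) ≤ 2 ^ j * X then wt f b else 0) := by
        rw [Finset.sum_comm]
        simp only [Finset.mul_sum]
    _ ≤ ∑ j ∈ range (J + 1), C₁ * mag N f X * (K * (1 / 2) ^ j) := by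
        apply Finset.sum_le_sum
        intro j _
        have h9 : (2 : ℝ) ≤ 2 ^ j * X := by
          have : (1 : ℝ) ≤ 2 ^ j := one_le_pow₀ (by norm_num)
          nlinarith
        have h10 : ∑ b ∈ F, (if (nb N b : ℝ) ≤ 2 ^ j * X then wt f b else 0) ≤
            C₁ * mag N f (2 ^ j * X) := by
          rw [← Finset.sum_filter]
          refine le_trans ?_ (h3 _ h9)
          apply Finset.sum_le_sum_of_subset_of_nonneg
          · intro b hb
            rw [Finset.mem_filter] at hb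
            rw [Finset.mem_filter, Finset.mem_powerset]
            refine ⟨fun q hq => ?_, hb.2⟩
            rw [mem_pr h]
            refine le_trans ?_ hb.2
            exact_mod_cast le_nb h b hq
          · intro b _ _
            exact wt_nonneg (fun q => (hf q).1) b
        have h11 := mag_iter h hf hA hC₂ h2 hX j
        have h12 := hgeo j
        have hm : 0 ≤ mag N f X := by
          unfold mag
          have : 0 < log X := log_pos (by linarith)
          positivity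
        calc exp (-((2 : ℝ) ^ j - 1) / 2) * ∑ b ∈ F, (if (nb N b : ℝ) ≤ 2 ^ j * X then wt f b else 0)
            ≤ exp (-((2 : ℝ) ^ j - 1) / 2) *
              (C₁ * (2 ^ j * exp (j * (A * C₂ / log 2)) * mag N f X)) := by
              apply mul_le_mul_of_nonneg_left _ (exp_pos _).le
              exact h10.trans (mul_le_mul_of_nonneg_left h11 hC₁.le)
          _ = C₁ * mag N f X *
              (2 ^ j * exp (j * (A * C₂ / log 2)) * exp (-((2 : ℝ) ^ j - 1) / 2)) := by ring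
          _ ≤ C₁ * mag N f X * (K * (1 / 2) ^ j) := by
              apply mul_le_mul_of_nonneg_left h12
              exact mul_nonneg hC₁.le hm
    _ ≤ C₁ * (2 * K) * mag N f X := by
        rw [← Finset.mul_sum]
        have hm : 0 ≤ mag N f X := by
          unfold mag
          have : 0 < log X := log_pos (by linarith)
          positivity
        have h13 := geo_sum hK (J + 1)
        have h14 := mul_le_mul_of_nonneg_left h13 (mul_nonneg hC₁.le hm)
        linarith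

end

theorem p_hte (h1 : P_CNT) (h2 : P_HTU) : P_HTE := by
  intro C A₀
  set A : ℝ := max A₀ 0 with hAdef
  have hA : 0 ≤ A := le_max_right _ _
  obtain ⟨C₂, hC₂, hcnt⟩ := h1 C
  obtain ⟨C₁, hC₁, htu⟩ := h2 C A
  obtain ⟨K, hK, hgeo⟩ := geo (A * C₂ / log 2)
  set Cs : ℝ := C₁ * (2 * K) with hCs
  have hCs0 : 0 < Cs := by positivity
  set M : ℝ := Cs * (4 / log 4 * exp (A * (C₂ * (4 / log 4)))) with hM
  have hl4 : 0 < log 4 := log_pos (by norm_num)
  have hM0 : 0 < M := by positivity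
  refine ⟨Cs + 8 * M, by positivity, ?_⟩
  intro P N hP f hf₀
  have hf : ∀ q, 0 ≤ f q ∧ f q ≤ A := fun q => ⟨(hf₀ q).1, (hf₀ q).2.trans (le_max_left _ _)⟩
  have hwt := wt_nonneg (fun q => (hf q).1)
  obtain ⟨hc1, hc2, -, -⟩ := hcnt P N hP
  have hfin : ∀ X : ℝ, 2 ≤ X → ∀ F : Finset (Finset P),
      ∑ b ∈ F, wt f b * exp (-(nb N b : ℝ) / X) ≤ Cs * mag N f X := by
    intro X hX F
    exact fin_bound hP hf hA hC₁ hC₂ hK hc2 (htu P N hP f hf) hgeo hX F
  have hnn : ∀ X : ℝ, ∀ b : Finset P, 0 ≤ wt f b * exp (-(nb N b : ℝ) / X) :=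
    fun X b => mul_nonneg (hwt b) (exp_pos _).le
  have hsum2 : ∀ X : ℝ, 2 ≤ X → Summable fun b : Finset P ↦ wt f b * exp (-(nb N b : ℝ) / X) := by
    intro X hX
    exact summable_of_sum_le (hnn X) (hfin X hX)
  -- comparison with `X = 4`
  have hcmp : ∀ X : ℝ, 0 < X → X ≤ 2 → ∀ b : Finset P,
      wt f b * exp (-(nb N b : ℝ) / X) ≤ (8 * X ^ 2) * (wt f b * exp (-(nb N b : ℝ) / 4)) := by
    intro X hX hX2 b
    have hb1 : (1 : ℝ) ≤ nb N b := by exact_mod_cast nb_pos hP b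
    have e1 : exp (-(nb N b : ℝ) / X) ≤ exp (-(1 / (2 * X))) * exp (-(nb N b : ℝ) / 4) := by
      rw [← exp_add]
      apply exp_le_exp.mpr
      have e2 : -(nb N b : ℝ) / X = -(nb N b / (2 * X)) + -(nb N b / (2 * X)) := by
        field_simp
        ring
      rw [e2]
      have e3 : 1 / (2 * X) ≤ nb N b / (2 * X) := by
        apply div_le_div_of_nonneg_right hb1 (by positivity)
      have e4 : (nb N b : ℝ) / 4 ≤ nb N b / (2 * X) := by
        apply div_le_div_of_nonneg_left (by positivity) (by positivity)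
        linarith
      rw [neg_div]
      linarith
    have e5 : exp (-(1 / (2 * X))) ≤ 8 * X ^ 2 := by
      have e6 := Real.pow_div_factorial_le_exp (1 / (2 * X)) (by positivity) 2
      rw [exp_neg]
      have e7 : (exp (1 / (2 * X)))⁻¹ ≤ ((1 / (2 * X)) ^ 2 / (Nat.factorial 2 : ℕ))⁻¹ :=
        inv_anti₀ (by positivity) e6
      refine e7.trans (le_of_eq ?_)
      have e8 : ((Nat.factorial 2 : ℕ) : ℝ) = 2 := by norm_num [Nat.factorial]
      rw [e8]
      field_simp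
      norm_num
    calc wt f b * exp (-(nb N b : ℝ) / X)
        ≤ wt f b * (exp (-(1 / (2 * X))) * exp (-(nb N b : ℝ) / 4)) :=
          mul_le_mul_of_nonneg_left e1 (hwt b)
      _ ≤ wt f b * ((8 * X ^ 2) * exp (-(nb N b : ℝ) / 4)) := by
          apply mul_le_mul_of_nonneg_left _ (hwt b)
          exact mul_le_mul_of_nonneg_right e5 (exp_pos _).le
      _ = (8 * X ^ 2) * (wt f b * exp (-(nb N b : ℝ) / 4)) := by ring
  have hs4 := hsum2 4 (by norm_num)
  have hsmall : ∀ X : ℝ, 0 < X → X ≤ 2 →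
      Summable fun b : Finset P ↦ wt f b * exp (-(nb N b : ℝ) / X) := by
    intro X hX hX2
    exact Summable.of_nonneg_of_le (hnn X) (hcmp X hX hX2) (hs4.mul_left _)
  have hms : ms N f 4 ≤ A * (C₂ * (4 / log 4)) := by
    have e1 := hc1 4 (by norm_num)
    unfold ms
    calc ∑ q ∈ pr N 4, f q / N q ≤ ∑ q ∈ pr N 4, A := by
          apply Finset.sum_le_sum
          intro q _
          have e2 : (1 : ℝ) ≤ N q := by
            have := hP.two q
            exact_mod_cast (by omega : 1 ≤ N q)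
          calc f q / N q ≤ f q := div_le_self (hf q).1 e2
            _ ≤ A := (hf q).2
      _ = A * (pr N 4).card := by rw [Finset.sum_const, nsmul_eq_mul, mul_comm]
      _ ≤ A * (C₂ * (4 / log 4)) := mul_le_mul_of_nonneg_left e1 hA
  have ht4 : ∑' b : Finset P, wt f b * exp (-(nb N b : ℝ) / 4) ≤ M := by
    have e1 : ∑' b : Finset P, wt f b * exp (-(nb N b : ℝ) / 4) ≤ Cs * mag N f 4 :=
      hs4.tsum_le_of_sum_le (hfin 4 (by norm_num))
    refine e1.trans ?_
    rw [hM]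
    apply mul_le_mul_of_nonneg_left _ hCs0.le
    unfold mag
    apply mul_le_mul_of_nonneg_left _ (by positivity)
    exact exp_le_exp.mpr hms
  refine ⟨fun X hX => ?_, fun X hX => ?_, fun X hX hX2 => ?_⟩
  · rcases le_total X 2 with h | h
    · exact hsmall X hX h
    · exact hsum2 X h
  · have e1 : ∑' b : Finset P, wt f b * exp (-(nb N b : ℝ) / X) ≤ Cs * mag N f X :=
      (hsum2 X hX).tsum_le_of_sum_le (hfin X hX)
    have hm : 0 ≤ mag N f X := by
      unfold mag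
      have : 0 < log X := log_pos (by linarith)
      positivity
    nlinarith
  · have e1 : ∑' b : Finset P, wt f b * exp (-(nb N b : ℝ) / X) ≤
        ∑' b : Finset P, (8 * X ^ 2) * (wt f b * exp (-(nb N b : ℝ) / 4)) :=
      Summable.tsum_le_tsum (hcmp X hX hX2) (hsmall X hX hX2) (hs4.mul_left _)
    rw [tsum_mul_left] at e1
    have e2 : (8 * X ^ 2) * ∑' b : Finset P, wt f b * exp (-(nb N b : ℝ) / 4) ≤ (8 * X ^ 2) * M :=
      mul_le_mul_of_nonneg_left ht4 (by positivity)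
    have e3 : 0 ≤ Cs * X ^ 2 := by positivity
    nlinarith

end Pool.Agent.Helper39.PPS
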